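import Pool.Agent.Q181.BD.Stm2

set_option autoImplicit false

/-!
# Two disjoint lines, the free half (job BD-LL2)
-/

namespace Pool.Agent.Q213.BD

open Pool.Agent.Q181.BD

variable {V : Type} {W : V → V → ℤ} {c : ℝ} {p q : ℤ → V}

/-- the neighbours of a vertex on a line -/
theorem nbrs (htwo : S_two) (hN : Net W c) (hp : Line W p) {u : V} (hu : Off p u)
    (h : ¬ Free W p u) :
    ∃ k k' : ℤ, (k' = k ∨ k' = k + 2) ∧ ∀ i, W (p i) u ≠ 0 ↔ (i = k ∨ i = k') := by
  unfold Free at h
  push Not at h
  obtain ⟨k, hk⟩ := h
  by_cases h1 : W (p (k - 2)) u ≠ 0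
  · refine ⟨k - 2, k, Or.inr (by ring), fun i => ⟨fun hi => ?_, ?_⟩⟩
    · rcases le_total i k with hik | hik
      · rcases htwo V W c hN p hp u i k hu hi hk hik with h | h
        · omega
        · omega
      · rcases htwo V W c hN p hp u k i hu hk hi hik with h | h
        · omega
        · rcases htwo V W c hN p hp u (k - 2) i hu h1 hi (by omega) with h' | h' <;> omega
    · rintro (rfl | rfl)
      · exact h1
      · exact hk
  · by_cases h2 : W (p (k + 2)) u ≠ 0
    · refine ⟨k, k + 2, Or.inr rfl, fun i => ⟨fun hi => ?_, ?_⟩⟩
      · rcases le_total i k with hik | hik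
        · rcases htwo V W c hN p hp u i k hu hi hk hik with h | h
          · omega
          · rcases htwo V W c hN p hp u i (k + 2) hu hi h2 (by omega) with h' | h' <;> omega
        · rcases htwo V W c hN p hp u k i hu hk hi hik with h | h <;> omega
      · rintro (rfl | rfl)
        · exact hk
        · exact h2
    · refine ⟨k, k, Or.inl rfl, fun i => ⟨fun hi => ?_, ?_⟩⟩
      · rcases le_total i k with hik | hik
        · rcases htwo V W c hN p hp u i k hu hi hk hik with h | h
          · omega
          · exfalso
            apply h1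
            rwa [show k - 2 = i by omega]
        · rcases htwo V W c hN p hp u k i hu hk hi hik with h | h
          · omega
          · exfalso
            apply h2
            rwa [← h]
      · rintro (rfl | rfl) <;> exact hk

/-- parities of adjacent positions -/
theorem parity (hN : Net W c) (hp : Line W p) (hq : Line W q) {i l i' l' : ℤ}
    (h : W (p i) (q l) ≠ 0) (h' : W (p i') (q l') ≠ 0) : Even ((i - l) - (i' - l')) := by
  obtain ⟨s, hs⟩ := hN.side
  have h1 := hs _ _ h
  have h2 := hs _ _ h'
  rw [line_side hs hp, line_side hs hq] at h1 h2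
  have e : (i - l) - (i' - l') = (i - i') - (l - l') := by ring
  rw [e, Int.even_sub, Int.even_sub, Int.even_sub]
  revert h1 h2
  by_cases a : Even i <;> by_cases b : Even i' <;> by_cases a' : Even l <;> by_cases b' : Even l' <;>
    simp only [a, b, a', b', if_true, if_false] <;>
    cases s (p 0) <;> cases s (q 0) <;> simp

theorem t_ll2 : S_sa → S_sub → S_two → S_out → S_ll2 := by
  intro hsa hsub htwo hout V W c hN p q hp hq hd hm1 h0 h1 s hs
  by_contra hcon
  have hex : ∃ n : ℕ, ¬ Free W p (q (2 + n)) :=
    ⟨(s - 2).toNat, by rwa [show 2 + ((s - 2).toNat : ℤ) = s by omega]⟩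
  classical
  obtain ⟨j, hj2, hj, hfree⟩ : ∃ j : ℤ, 2 ≤ j ∧ ¬ Free W p (q j) ∧
      ∀ l, 2 ≤ l → l < j → Free W p (q l) := by
    refine ⟨2 + (Nat.find hex : ℤ), by omega, Nat.find_spec hex, fun l h2 hl => ?_⟩
    have := Nat.find_min hex (m := (l - 2).toNat) (by omega)
    rw [not_not, show 2 + ((l - 2).toNat : ℤ) = l by omega] at this
    exact this
  have hoff : ∀ l, Off p (q l) := fun l i => hd i l
  obtain ⟨k, k', hkk, hk⟩ := nbrs htwo hN hp (hoff j) hj
  -- adjacency table
  have A : ∀ i l : ℤ, -1 ≤ l → l ≤ j → (W (p i) (q l) ≠ 0 ↔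
      (l = 0 ∧ i = 0) ∨ (l = 1 ∧ i = 1) ∨ (l = j ∧ (i = k ∨ i = k'))) := by
    intro i l hl hl'
    rcases (by omega : l = -1 ∨ l = 0 ∨ l = 1 ∨ (2 ≤ l ∧ l < j) ∨ l = j) with
      h | h | h | h | h
    · subst h
      have := hm1 i
      constructor
      · intro h; exact absurd this h
      · intro h; omega
    · subst h
      rw [h0]
      omega
    · subst h
      rw [h1]
      omega
    · have := hfree l h.1 h.2 i
      constructor
      · intro h; exact absurd this h
      · intro h; omega
    · subst h
      rw [hk]
      omega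
  have A' : ∀ i l : ℤ, -1 ≤ l → l ≤ j → (W (q l) (p i) ≠ 0 ↔
      (l = 0 ∧ i = 0) ∨ (l = 1 ∧ i = 1) ∨ (l = j ∧ (i = k ∨ i = k'))) := by
    intro i l hl hl'
    rw [hN.symm]
    exact A i l hl hl'
  -- zero and one are not neighbours of `q j`
  have n0 : ∀ i, (i = 0 ∨ i = 1) → ¬ (i = k ∨ i = k') := by
    intro i hi hik
    have hne : q i ≠ q j := fun h => by have := hq.inj h; omega
    have e1 : W (p i) (q i) ≠ 0 := by
      rw [A _ _ (by omega) (by omega)]
      omega
    have := hout V W c hN p hp i (q i) (q j) hne (hoff _) (hoff _) e1 ((hk i).2 hik)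
    rw [A _ _ (by omega) (by omega), A _ _ (by omega) (by omega), A _ _ (by omega) (by omega),
      A _ _ (by omega) (by omega)] at this
    omega
  have n1 := n0 0 (Or.inl rfl)
  have n2 := n0 1 (Or.inr rfl)
  have hev : Even (k - j) := by
    have := parity hN hp hq ((hk k).2 (Or.inl rfl)) ((h0 0).2 rfl)
    simpa using this
  rw [Int.even_iff] at hev
  rcases (by omega : 2 ≤ k ∨ k' ≤ -1) with hR | hL
  · -- (R)
    rcases (by omega : j + 2 ≤ k' ∨ k' ≤ j) with hRa | hRb
    · -- (R-a)
      obtain ⟨n, hn⟩ : ∃ n : ℕ, (n : ℤ) = j + 1 := ⟨(j + 1).toNat, by omega⟩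
      let x : ℕ → V := fun l => q ((l : ℤ) - 1)
      have hp' : Line W (sur p 0 k' n x) := by
        refine hsub V W hN.symm p hp 0 k' n x (by omega) (by omega)
          ⟨fun l _ _ i => hd i _, fun l l' _ _ _ _ h => ?_, fun l l' _ _ _ _ => ?_⟩
          (fun l i _ _ _ => ?_)
        · have := hq.inj h
          omega
        · simp only [x]
          rw [hq.adj]
          omega
        · simp only [x]
          rw [A _ _ (by omega) (by omega)]
          omega
      have hoffu : Off (sur p 0 k' n x) (q (-1)) := by
        intro i
        rcases sur_cases p 0 k' n x i with ⟨a, e⟩ | ⟨t, a, b, hi, e⟩ | ⟨t, a, hi, e⟩ <;> rw [e] <;>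
          intro h
        · exact hd _ _ h
        · have := hq.inj h
          omega
        · exact hd _ _ h
      have honeu : One W (sur p 0 k' n x) (q (-1)) 1 := by
        intro i
        rcases sur_cases p 0 k' n x i with ⟨a, e⟩ | ⟨t, a, b, hi, e⟩ | ⟨t, a, hi, e⟩ <;> rw [e]
        · rw [A _ _ (by omega) (by omega)]
          omega
        · simp only [x]
          rw [hq.adj]
          omega
        · rw [A _ _ (by omega) (by omega)]
          omega
      have hoffp : ∀ l : ℤ, 0 < l → l < k' → Off (sur p 0 k' n x) (p l) := by
        intro l hl hl' i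
        rcases sur_cases p 0 k' n x i with ⟨a, e⟩ | ⟨t, a, b, hi, e⟩ | ⟨t, a, hi, e⟩ <;> rw [e] <;>
          intro h
        · have := hp.inj h
          omega
        · exact hd _ _ h.symm
        · have := hp.inj h
          omega
      rcases hkk with hkk | hkk
      · obtain ⟨m, hm⟩ : ∃ m : ℕ, (m : ℤ) = k' - 2 := ⟨(k' - 2).toNat, by omega⟩
        refine hsa V W c hN (sur p 0 k' n x) hp' (j + 2) 1 m (fun l => p (k' - l)) (q (-1))
          (by omega) (by omega) ⟨fun l _ _ => hoffp _ (by omega) (by omega),
            fun l l' _ _ _ _ h => ?_, fun l l' _ _ _ _ => ?_⟩ (fun l i _ _ => ?_)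
          hoffu honeu (fun l _ _ => ⟨hd _ _, ?_⟩)
        · have := hp.inj h
          omega
        · rw [hp.adj]
          omega
        · rcases sur_cases p 0 k' n x i with ⟨a, e⟩ | ⟨t, a, b, hi, e⟩ | ⟨t, a, hi, e⟩ <;> rw [e]
          · rw [hp.adj]
            omega
          · simp only [x]
            rw [A' _ _ (by omega) (by omega)]
            omega
          · rw [hp.adj]
            omega
        · exact hm1 _
      · obtain ⟨m, hm⟩ : ∃ m : ℕ, (m : ℤ) = k' - 3 := ⟨(k' - 3).toNat, by omega⟩
        refine hsa V W c hN (sur p 0 k' n x) hp' (j + 1) 1 m (fun l => p (k' - 1 - l)) (q (-1))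
          (by omega) (by omega) ⟨fun l _ _ => hoffp _ (by omega) (by omega),
            fun l l' _ _ _ _ h => ?_, fun l l' _ _ _ _ => ?_⟩ (fun l i _ _ => ?_)
          hoffu honeu (fun l _ _ => ⟨hd _ _, ?_⟩)
        · have := hp.inj h
          omega
        · rw [hp.adj]
          omega
        · rcases sur_cases p 0 k' n x i with ⟨a, e⟩ | ⟨t, a, b, hi, e⟩ | ⟨t, a, hi, e⟩ <;> rw [e]
          · rw [hp.adj]
            omega
          · simp only [x]
            rw [A' _ _ (by omega) (by omega)]
            omega
          · rw [hp.adj]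
            omega
        · exact hm1 _
    · -- (R-b)
      rcases hkk with hkk | hkk
      · rcases (by omega : j = 2 ∨ 3 ≤ j) with hj' | hj'
        · -- `j = 2`
          have hk2 : k = 2 := by omega
          let x : ℕ → V := fun l => q ((l : ℤ) - 1)
          have hp' : Line W (sur p 0 2 3 x) := by
            refine hsub V W hN.symm p hp 0 2 3 x (by omega) (by omega)
              ⟨fun l _ _ i => hd i _, fun l l' _ _ _ _ h => ?_, fun l l' _ _ _ _ => ?_⟩
              (fun l i _ _ _ => ?_)
            · have := hq.inj h
              omega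
            · simp only [x]
              rw [hq.adj]
              omega
            · simp only [x]
              rw [A _ _ (by omega) (by omega)]
              omega
          have hoffp : Off (sur p 0 2 3 x) (p 1) := by
            intro i
            rcases sur_cases p 0 2 3 x i with ⟨a, e⟩ | ⟨t, a, b, hi, e⟩ | ⟨t, a, hi, e⟩ <;>
              rw [e] <;> intro h
            · have := hp.inj h
              omega
            · exact hd _ _ h.symm
            · have := hp.inj h
              omega
          have e1 : W (sur p 0 2 3 x 0) (p 1) ≠ 0 := by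
            rw [sur_le _ _ _ _ _ _ le_rfl, hp.adj]
            omega
          have e2 : W (sur p 0 2 3 x 4) (p 1) ≠ 0 := by
            have := sur_ge p 0 2 3 x 2 le_rfl
            norm_num at this
            rw [this, hp.adj]
            omega
          have := htwo V W c hN _ hp' (p 1) 0 4 hoffp e1 e2 (by omega)
          omega
        · obtain ⟨m, hm⟩ : ∃ m : ℕ, (m : ℤ) = j - 2 := ⟨(j - 2).toNat, by omega⟩
          refine hsa V W c hN p hp 1 k m (fun l => q l) (q j) (by omega) (by omega)
            ⟨fun l _ _ => hoff _, fun l l' _ _ _ _ h => ?_, fun l l' _ _ _ _ => ?_⟩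
            (fun l i _ _ => ?_) (hoff _) (fun i => ?_) (fun l _ _ => ⟨fun h => ?_, ?_⟩)
          · have := hq.inj h
            omega
          · rw [hq.adj]
            omega
          · rw [A _ _ (by omega) (by omega)]
            omega
          · rw [hk]
            omega
          · have := hq.inj h
            omega
          · by_contra h
            rw [← ne_eq, hq.adj] at h
            omega
      · let x : ℕ → V := fun _ => q j
        have hp' : Line W (sur p (k' - 2) k' 1 x) := by
          refine hsub V W hN.symm p hp (k' - 2) k' 1 x (by omega) (by omega)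
            ⟨fun l _ _ i => hd i _, fun l l' _ _ _ _ h => by omega, fun l l' _ _ _ _ => ?_⟩
            (fun l i _ _ _ => ?_)
          · simp only [x]
            rw [hq.adj]
            omega
          · simp only [x]
            rw [A _ _ (by omega) (by omega)]
            omega
        obtain ⟨m, hm⟩ : ∃ m : ℕ, (m : ℤ) = j - 3 := ⟨(j - 3).toNat, by omega⟩
        refine hsa V W c hN _ hp' 1 (k' - 1) m (fun l => q l) (q (j - 1)) (by omega) (by omega)
            ⟨fun l _ _ i => ?_, fun l l' _ _ _ _ h => ?_, fun l l' _ _ _ _ => ?_⟩
            (fun l i _ _ => ?_) (fun i => ?_) (fun i => ?_) (fun l _ _ => ⟨fun h => ?_, ?_⟩)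
        · rcases sur_cases p (k' - 2) k' 1 x i with ⟨a, e⟩ | ⟨t, a, b, hi, e⟩ | ⟨t, a, hi, e⟩ <;>
            rw [e] <;> intro h
          · exact hd _ _ h
          · have := hq.inj h
            omega
          · exact hd _ _ h
        · have := hq.inj h
          omega
        · rw [hq.adj]
          omega
        · rcases sur_cases p (k' - 2) k' 1 x i with ⟨a, e⟩ | ⟨t, a, b, hi, e⟩ | ⟨t, a, hi, e⟩ <;>
            rw [e]
          · rw [A _ _ (by omega) (by omega)]
            omega
          · simp only [x]
            rw [hq.adj]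
            omega
          · rw [A _ _ (by omega) (by omega)]
            omega
        · rcases sur_cases p (k' - 2) k' 1 x i with ⟨a, e⟩ | ⟨t, a, b, hi, e⟩ | ⟨t, a, hi, e⟩ <;>
            rw [e] <;> intro h
          · exact hd _ _ h
          · have := hq.inj h
            omega
          · exact hd _ _ h
        · rcases sur_cases p (k' - 2) k' 1 x i with ⟨a, e⟩ | ⟨t, a, b, hi, e⟩ | ⟨t, a, hi, e⟩ <;>
            rw [e]
          · rw [A _ _ (by omega) (by omega)]
            omega
          · simp only [x]
            rw [hq.adj]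
            omega
          · rw [A _ _ (by omega) (by omega)]
            omega
        · have := hq.inj h
          omega
        · by_contra h
          rw [← ne_eq, hq.adj] at h
          omega
  · -- (L)
    rcases (by omega : j ≤ -k ∨ -k ≤ j - 2) with hLa | hLb
    · -- (L-a)
      obtain ⟨n, hn⟩ : ∃ n : ℕ, (n : ℤ) = j := ⟨j.toNat, by omega⟩
      let x : ℕ → V := fun l => q (j + 1 - l)
      have hp' : Line W (sur p k 1 n x) := by
        refine hsub V W hN.symm p hp k 1 n x (by omega) (by omega)
          ⟨fun l _ _ i => hd i _, fun l l' _ _ _ _ h => ?_, fun l l' _ _ _ _ => ?_⟩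
          (fun l i _ _ _ => ?_)
        · have := hq.inj h
          omega
        · simp only [x]
          rw [hq.adj]
          omega
        · simp only [x]
          rw [A _ _ (by omega) (by omega)]
          omega
      have hoffu : Off (sur p k 1 n x) (q 0) := by
        intro i
        rcases sur_cases p k 1 n x i with ⟨a, e⟩ | ⟨t, a, b, hi, e⟩ | ⟨t, a, hi, e⟩ <;> rw [e] <;>
          intro h
        · exact hd _ _ h
        · have := hq.inj h
          omega
        · exact hd _ _ h
      have honeu : One W (sur p k 1 n x) (q 0) (k + j) := by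
        intro i
        rcases sur_cases p k 1 n x i with ⟨a, e⟩ | ⟨t, a, b, hi, e⟩ | ⟨t, a, hi, e⟩ <;> rw [e]
        · rw [A _ _ (by omega) (by omega)]
          omega
        · simp only [x]
          rw [hq.adj]
          omega
        · rw [A _ _ (by omega) (by omega)]
          omega
      have hoffp : ∀ l : ℤ, k < l → l < 1 → Off (sur p k 1 n x) (p l) := by
        intro l hl hl' i
        rcases sur_cases p k 1 n x i with ⟨a, e⟩ | ⟨t, a, b, hi, e⟩ | ⟨t, a, hi, e⟩ <;> rw [e] <;>
          intro h
        · have := hp.inj h
          omega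
        · exact hd _ _ h.symm
        · have := hp.inj h
          omega
      rcases hkk with hkk | hkk
      · obtain ⟨m, hm⟩ : ∃ m : ℕ, (m : ℤ) = -k - 1 := ⟨(-k - 1).toNat, by omega⟩
        refine hsa V W c hN (sur p k 1 n x) hp' k (k + j) m (fun l => p (k + l)) (q 0)
          (by omega) (by omega) ⟨fun l _ _ => hoffp _ (by omega) (by omega),
            fun l l' _ _ _ _ h => ?_, fun l l' _ _ _ _ => ?_⟩ (fun l i _ _ => ?_)
          hoffu honeu (fun l _ _ => ⟨hd _ _, ?_⟩)
        · have := hp.inj h
          omega
        · rw [hp.adj]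
          omega
        · rcases sur_cases p k 1 n x i with ⟨a, e⟩ | ⟨t, a, b, hi, e⟩ | ⟨t, a, hi, e⟩ <;> rw [e]
          · rw [hp.adj]
            omega
          · simp only [x]
            rw [A' _ _ (by omega) (by omega)]
            omega
          · rw [hp.adj]
            omega
        · by_contra h
          rw [← ne_eq, A _ _ (by omega) (by omega)] at h
          omega
      · obtain ⟨m, hm⟩ : ∃ m : ℕ, (m : ℤ) = -k - 2 := ⟨(-k - 2).toNat, by omega⟩
        refine hsa V W c hN (sur p k 1 n x) hp' (k + 1) (k + j) m (fun l => p (k + 1 + l)) (q 0)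
          (by omega) (by omega) ⟨fun l _ _ => hoffp _ (by omega) (by omega),
            fun l l' _ _ _ _ h => ?_, fun l l' _ _ _ _ => ?_⟩ (fun l i _ _ => ?_)
          hoffu honeu (fun l _ _ => ⟨hd _ _, ?_⟩)
        · have := hp.inj h
          omega
        · rw [hp.adj]
          omega
        · rcases sur_cases p k 1 n x i with ⟨a, e⟩ | ⟨t, a, b, hi, e⟩ | ⟨t, a, hi, e⟩ <;> rw [e]
          · rw [hp.adj]
            omega
          · simp only [x]
            rw [A' _ _ (by omega) (by omega)]
            omega
          · rw [hp.adj]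
            omega
        · by_contra h
          rw [← ne_eq, A _ _ (by omega) (by omega)] at h
          omega
    · -- (L-b)
      rcases hkk with hkk | hkk
      · obtain ⟨m, hm⟩ : ∃ m : ℕ, (m : ℤ) = j - 2 := ⟨(j - 2).toNat, by omega⟩
        refine hsa V W c hN p hp 1 k m (fun l => q l) (q j) (by omega) (by omega)
          ⟨fun l _ _ => hoff _, fun l l' _ _ _ _ h => ?_, fun l l' _ _ _ _ => ?_⟩
          (fun l i _ _ => ?_) (hoff _) (fun i => ?_) (fun l _ _ => ⟨fun h => ?_, ?_⟩)
        · have := hq.inj h
          omega
        · rw [hq.adj]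
          omega
        · rw [A _ _ (by omega) (by omega)]
          omega
        · rw [hk]
          omega
        · have := hq.inj h
          omega
        · by_contra h
          rw [← ne_eq, hq.adj] at h
          omega
      · let x : ℕ → V := fun _ => q j
        have hp' : Line W (sur p k (k + 2) 1 x) := by
          refine hsub V W hN.symm p hp k (k + 2) 1 x (by omega) (by omega)
            ⟨fun l _ _ i => hd i _, fun l l' _ _ _ _ h => by omega, fun l l' _ _ _ _ => ?_⟩
            (fun l i _ _ _ => ?_)
          · simp only [x]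
            rw [hq.adj]
            omega
          · simp only [x]
            rw [A _ _ (by omega) (by omega)]
            omega
        obtain ⟨m, hm⟩ : ∃ m : ℕ, (m : ℤ) = j - 3 := ⟨(j - 3).toNat, by omega⟩
        refine hsa V W c hN _ hp' 1 (k + 1) m (fun l => q l) (q (j - 1)) (by omega) (by omega)
            ⟨fun l _ _ i => ?_, fun l l' _ _ _ _ h => ?_, fun l l' _ _ _ _ => ?_⟩
            (fun l i _ _ => ?_) (fun i => ?_) (fun i => ?_) (fun l _ _ => ⟨fun h => ?_, ?_⟩)
        · rcases sur_cases p k (k + 2) 1 x i with ⟨a, e⟩ | ⟨t, a, b, hi, e⟩ | ⟨t, a, hi, e⟩ <;>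
            rw [e] <;> intro h
          · exact hd _ _ h
          · have := hq.inj h
            omega
          · exact hd _ _ h
        · have := hq.inj h
          omega
        · rw [hq.adj]
          omega
        · rcases sur_cases p k (k + 2) 1 x i with ⟨a, e⟩ | ⟨t, a, b, hi, e⟩ | ⟨t, a, hi, e⟩ <;>
            rw [e]
          · rw [A _ _ (by omega) (by omega)]
            omega
          · simp only [x]
            rw [hq.adj]
            omega
          · rw [A _ _ (by omega) (by omega)]
            omega
        · rcases sur_cases p k (k + 2) 1 x i with ⟨a, e⟩ | ⟨t, a, b, hi, e⟩ | ⟨t, a, hi, e⟩ <;>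
            rw [e] <;> intro h
          · exact hd _ _ h
          · have := hq.inj h
            omega
          · exact hd _ _ h
        · rcases sur_cases p k (k + 2) 1 x i with ⟨a, e⟩ | ⟨t, a, b, hi, e⟩ | ⟨t, a, hi, e⟩ <;>
            rw [e]
          · rw [A _ _ (by omega) (by omega)]
            omega
          · simp only [x]
            rw [hq.adj]
            omega
          · rw [A _ _ (by omega) (by omega)]
            omega
        · have := hq.inj h
          omega
        · by_contra h
          rw [← ne_eq, hq.adj] at h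
          omega

end Pool.Agent.Q213.BD
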