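import Pool.Agent.Q181.BD.Stm1

set_option autoImplicit false

/-!
# Two side arms (job BD-SA)
-/

namespace Pool.Agent.Q213.BD

open Pool.Agent.Q181.BD Finset

variable {V : Type} {W : V → V → ℤ} {c : ℝ} {p : ℤ → V}

/-- the parent function of the tree -/
def parent (L m a b : ℕ) (ha : a < L) (hb : b < L) :
    Fin L ⊕ (Fin m ⊕ Unit) → Option (Fin L ⊕ (Fin m ⊕ Unit))
  | Sum.inl t => if t.1 = 0 then none else some (Sum.inl ⟨t.1 - 1, by omega⟩)
  | Sum.inr (Sum.inl k) => if k.1 = 0 then some (Sum.inl ⟨a, ha⟩)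
      else some (Sum.inr (Sum.inl ⟨k.1 - 1, by omega⟩))
  | Sum.inr (Sum.inr _) => some (Sum.inl ⟨b, hb⟩)

/-- the tree inequality -/
theorem tree (ht : S_tree) (hN : Net W c) (hp : Line W p) (d m : ℕ) (x : ℕ → V) (u : V)
    (ha : Arm W p m x)
    (hx : ∀ k a, 1 ≤ k → k ≤ m → (W (p a) (x k) ≠ 0 ↔ (a = 0 ∧ k = 1)))
    (hu : Off p u) (h1 : One W p u d) (hxu : ∀ k, 1 ≤ k → k ≤ m → x k ≠ u ∧ W (x k) u = 0)
    (N : ℕ) (F g : ℕ → ℝ) (w : ℝ) (hF : ∀ k, k < N + d + N + 1 → 0 ≤ F k)
    (hg : ∀ k, k ≤ m → 0 ≤ g k) (hw : 0 ≤ w) (h0 : g 0 = F N) :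
    2 * (∑ t ∈ range (N + d + N), F (t + 1) * F t + ∑ k ∈ range m, g (k + 1) * g k
      + w * F (N + d)) ≤
    c * (∑ t ∈ range (N + d + N + 1), F t ^ 2 + ∑ k ∈ range m, g (k + 1) ^ 2 + w ^ 2) := by
  set L := N + d + N + 1 with hL
  have key := ht V W c hN (Fin L ⊕ (Fin m ⊕ Unit))
    (fun z => match z with
      | Sum.inl t => p ((t.1 : ℤ) - N)
      | Sum.inr (Sum.inl k) => x (k.1 + 1)
      | Sum.inr (Sum.inr _) => u)
    (parent L m N (N + d) (by omega) (by omega))
    (fun z => match z with
      | Sum.inl t => t.1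
      | Sum.inr (Sum.inl k) => L + k.1
      | Sum.inr (Sum.inr _) => L)
    (fun z => match z with
      | Sum.inl t => F t.1
      | Sum.inr (Sum.inl k) => g (k.1 + 1)
      | Sum.inr (Sum.inr _) => w) ?_ ?_ ?_ ?_ ?_
  · rw [Fintype.sum_sum_type, Fintype.sum_sum_type, Fintype.sum_sum_type,
      Fintype.sum_sum_type] at key
    have e1 : ∑ t : Fin L, ((parent L m N (N + d) (by omega) (by omega) (Sum.inl t)).elim 0
        (fun y => F t.1 * (match y with
          | Sum.inl t => F t.1
          | Sum.inr (Sum.inl k) => g (k.1 + 1)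
          | Sum.inr (Sum.inr _) => w)) : ℝ) = ∑ t ∈ range (N + d + N), F (t + 1) * F t := by
      have : ∀ t : Fin L, ((parent L m N (N + d) (by omega) (by omega) (Sum.inl t)).elim 0
        (fun y => F t.1 * (match y with
          | Sum.inl t => F t.1
          | Sum.inr (Sum.inl k) => g (k.1 + 1)
          | Sum.inr (Sum.inr _) => w)) : ℝ) =
          (fun s : ℕ => if s = 0 then 0 else F s * F (s - 1)) t.1 := by
        intro t
        by_cases h : t.1 = 0
        · simp only [parent, h, if_true, Option.elim_none]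
        · simp only [parent, h, if_false, Option.elim_some]
      rw [Finset.sum_congr rfl (fun t _ => this t),
        Fin.sum_univ_eq_sum_range (fun s : ℕ => if s = 0 then (0 : ℝ) else F s * F (s - 1)) L, hL,
        Finset.sum_range_succ']
      simp
    have e2 : ∑ t : Fin m, ((parent L m N (N + d) (by omega) (by omega)
        (Sum.inr (Sum.inl t))).elim 0
        (fun y => g (t.1 + 1) * (match y with
          | Sum.inl t => F t.1
          | Sum.inr (Sum.inl k) => g (k.1 + 1)
          | Sum.inr (Sum.inr _) => w)) : ℝ) = ∑ t ∈ range m, g (t + 1) * g t := by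
      have : ∀ t : Fin m, ((parent L m N (N + d) (by omega) (by omega)
        (Sum.inr (Sum.inl t))).elim 0
        (fun y => g (t.1 + 1) * (match y with
          | Sum.inl t => F t.1
          | Sum.inr (Sum.inl k) => g (k.1 + 1)
          | Sum.inr (Sum.inr _) => w)) : ℝ) =
          (fun s : ℕ => g (s + 1) * g s) t.1 := by
        intro t
        by_cases h : t.1 = 0
        · simp only [parent, h, if_true, Option.elim_some, h0]
        · simp only [parent, h, if_false, Option.elim_some]
          rw [Nat.sub_add_cancel (by omega)]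
      rw [Finset.sum_congr rfl (fun t _ => this t),
        Fin.sum_univ_eq_sum_range (fun s : ℕ => g (s + 1) * g s) m]
    have e3 : ∑ t : Fin L, F t.1 ^ 2 = ∑ t ∈ range L, F t ^ 2 :=
      Fin.sum_univ_eq_sum_range (fun s : ℕ => F s ^ 2) L
    have e4 : ∑ t : Fin m, g (t.1 + 1) ^ 2 = ∑ t ∈ range m, g (t + 1) ^ 2 :=
      Fin.sum_univ_eq_sum_range (fun s : ℕ => g (s + 1) ^ 2) m
    dsimp only at key
    rw [e1, e2, e3, e4] at key
    simp only [parent, Option.elim_some, Finset.univ_unique, Finset.sum_const, Finset.card_singleton,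
      one_smul] at key
    nlinarith [key]
  · -- injective
    rintro (s | s | s) (t | t | t) h
    · have := hp.inj h
      congr 1
      ext
      omega
    · exact absurd h (ha.off (t.1 + 1) (by omega) (by omega) _)
    · exact absurd h (hu _)
    · exact absurd h.symm (ha.off (s.1 + 1) (by omega) (by omega) _)
    · have := ha.inj _ _ (by omega) (by omega) (by omega) (by omega) h
      congr 2
      ext
      omega
    · exact absurd h (hxu (s.1 + 1) (by omega) (by omega)).1
    · exact absurd h.symm (hu _)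
    · exact absurd h.symm (hxu (t.1 + 1) (by omega) (by omega)).1
    · rfl
  · -- rank
    rintro (s | s | s) y h
    · by_cases h' : s.1 = 0
      · simp [parent, h'] at h
      · simp only [parent, h', if_false, Option.some.injEq] at h
        subst h
        dsimp only
        omega
    · by_cases h' : s.1 = 0
      · simp only [parent, h', if_true, Option.some.injEq] at h
        subst h
        dsimp only
        omega
      · simp only [parent, h', if_false, Option.some.injEq] at h
        subst h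
        dsimp only
        omega
    · simp only [parent, Option.some.injEq] at h
      subst h
      dsimp only
      omega
  · -- adjacent
    rintro (s | s | s) y h
    · by_cases h' : s.1 = 0
      · simp [parent, h'] at h
      · simp only [parent, h', if_false, Option.some.injEq] at h
        subst h
        dsimp only
        rw [hp.adj]
        omega
    · by_cases h' : s.1 = 0
      · simp only [parent, h', if_true, Option.some.injEq] at h
        subst h
        dsimp only
        rw [hN.symm, hx _ _ (by omega) (by omega)]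
        omega
      · simp only [parent, h', if_false, Option.some.injEq] at h
        subst h
        dsimp only
        rw [ha.adj _ _ (by omega) (by omega) (by omega) (by omega)]
        omega
    · simp only [parent, Option.some.injEq] at h
      subst h
      dsimp only
      rw [hN.symm, h1]
      push_cast
      omega
  · -- induced
    rintro (s | s | s) (t | t | t) h
    · dsimp only at h
      rw [hp.adj] at h
      rcases h with h | h
      · right
        have : t.1 ≠ 0 := by omega
        simp only [parent, this, if_false, Option.some.injEq]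
        congr 1
        ext
        simp only
        omega
      · left
        have : s.1 ≠ 0 := by omega
        simp only [parent, this, if_false, Option.some.injEq]
        congr 1
        ext
        simp only
        omega
    · dsimp only at h
      rw [hx _ _ (by omega) (by omega)] at h
      right
      have : t.1 = 0 := by omega
      simp only [parent, this, if_true, Option.some.injEq]
      congr 1
      ext
      simp only
      omega
    · dsimp only at h
      rw [h1] at h
      right
      simp only [parent, Option.some.injEq]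
      congr 1
      ext
      simp only
      omega
    · dsimp only at h
      rw [hN.symm, hx _ _ (by omega) (by omega)] at h
      left
      have : s.1 = 0 := by omega
      simp only [parent, this, if_true, Option.some.injEq]
      congr 1
      ext
      simp only
      omega
    · dsimp only at h
      rw [ha.adj _ _ (by omega) (by omega) (by omega) (by omega)] at h
      rcases h with h | h
      · right
        have : t.1 ≠ 0 := by omega
        simp only [parent, this, if_false, Option.some.injEq]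
        congr 2
        ext
        simp only
        omega
      · left
        have : s.1 ≠ 0 := by omega
        simp only [parent, this, if_false, Option.some.injEq]
        congr 2
        ext
        simp only
        omega
    · exact absurd (hxu (s.1 + 1) (by omega) (by omega)).2 h
    · dsimp only at h
      rw [hN.symm, h1] at h
      left
      simp only [parent, Option.some.injEq]
      congr 1
      ext
      simp only
      omega
    · dsimp only at h
      rw [hN.symm] at h
      exact absurd (hxu (t.1 + 1) (by omega) (by omega)).2 h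
    · exact absurd (hN.loop u) h
  · rintro (s | s | s)
    · exact hF _ (by omega)
    · exact hg _ (by omega)
    · exact hw

/-! ## The rays -/

theorem geo1 (y : ℝ) (hy : y ^ 2 = 1 / 2) (N : ℕ) :
    ∑ t ∈ range N, y ^ (t + 1) * y ^ t = 2 * y * (1 - (1 / 2) ^ N) := by
  induction N with
  | zero => simp
  | succ n ih =>
    rw [Finset.sum_range_succ, ih]
    have : y ^ (n + 1) * y ^ n = y * (1 / 2) ^ n := by
      rw [← hy, ← pow_mul, ← pow_add, ← pow_succ']
      congr 1
      ring
    rw [this]
    ring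

theorem geo2 (y : ℝ) (hy : y ^ 2 = 1 / 2) (N : ℕ) :
    ∑ t ∈ range N, (y ^ (t + 1)) ^ 2 = 1 - (1 / 2) ^ N := by
  induction N with
  | zero => simp
  | succ n ih =>
    rw [Finset.sum_range_succ, ih]
    have : (y ^ (n + 1)) ^ 2 = (1 / 2) ^ (n + 1) := by
      rw [← hy, ← pow_mul, ← pow_mul, mul_comm]
    rw [this]
    ring

/-- the function on the line -/
noncomputable def line (y : ℝ) (f : ℕ → ℝ) (d N : ℕ) (t : ℕ) : ℝ :=
  if t < N then f 0 * y ^ (N - t) else if t ≤ N + d then f (t - N) else f d * y ^ (t - N - d)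

theorem line_lt (y : ℝ) (f : ℕ → ℝ) (d N t : ℕ) (h : t ≤ N) :
    line y f d N t = f 0 * y ^ (N - t) := by
  unfold line
  split_ifs with h1 h2
  · rfl
  · have : t = N := by omega
    subst this
    simp
  · omega

theorem line_mid (y : ℝ) (f : ℕ → ℝ) (d N t : ℕ) (h : t ≤ d) : line y f d N (N + t) = f t := by
  unfold line
  rw [if_neg (by omega), if_pos (by omega)]
  congr 1
  omega

theorem line_gt (y : ℝ) (f : ℕ → ℝ) (d N t : ℕ) : line y f d N (N + d + t) = f d * y ^ t := by
  unfold line
  split_ifs with h1 h2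
  · omega
  · have : t = 0 := by omega
    subst this
    simp
  · congr 2
    omega

/-- the tree inequality with two infinite rays -/
theorem rays (ht : S_tree) (hN : Net W c) (hp : Line W p) (d m : ℕ) (x : ℕ → V) (u : V)
    (ha : Arm W p m x)
    (hx : ∀ k a, 1 ≤ k → k ≤ m → (W (p a) (x k) ≠ 0 ↔ (a = 0 ∧ k = 1)))
    (hu : Off p u) (h1 : One W p u d) (hxu : ∀ k, 1 ≤ k → k ≤ m → x k ≠ u ∧ W (x k) u = 0)
    (y : ℝ) (hy0 : 0 < y) (hy : y ^ 2 = 1 / 2) (hc : c < 3 * y)
    (f g : ℕ → ℝ) (w : ℝ) (hf : ∀ k, k ≤ d → 0 ≤ f k)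
    (hg : ∀ k, k ≤ m → 0 ≤ g k) (hw : 0 ≤ w) (h0 : g 0 = f 0) :
    (3 * y - c) * f 0 ^ 2 ≤
      (3 * y * ∑ k ∈ range (d + 1), f k ^ 2 - 2 * ∑ k ∈ range d, f (k + 1) * f k)
      + (3 * y * ∑ k ∈ range m, g (k + 1) ^ 2 - 2 * ∑ k ∈ range m, g (k + 1) * g k)
      + (3 * y * w ^ 2 - 2 * w * f d) - y * f 0 ^ 2 - y * f d ^ 2 := by
  have key : ∀ N : ℕ, (3 * y - c) * f 0 ^ 2 ≤
      (3 * y * ∑ k ∈ range (d + 1), f k ^ 2 - 2 * ∑ k ∈ range d, f (k + 1) * f k)
      + (3 * y * ∑ k ∈ range m, g (k + 1) ^ 2 - 2 * ∑ k ∈ range m, g (k + 1) * g k)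
      + (3 * y * w ^ 2 - 2 * w * f d) - y * f 0 ^ 2 - y * f d ^ 2
      + y * (f 0 ^ 2 + f d ^ 2) * (1 / 2) ^ N := by
    intro N
    have h := tree ht hN hp d m x u ha hx hu h1 hxu N (line y f d N) g w ?_ hg hw ?_
    · rw [line_mid y f d N d le_rfl] at h
      rw [Finset.sum_range_add (fun t => line y f d N (t + 1) * line y f d N t) (N + d) N,
        Finset.sum_range_add (fun t => line y f d N (t + 1) * line y f d N t) N d,
        show N + d + N + 1 = N + (d + 1) + N by ring,
        Finset.sum_range_add (fun t => line y f d N t ^ 2) (N + (d + 1)) N,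
        Finset.sum_range_add (fun t => line y f d N t ^ 2) N (d + 1)] at h
      have a1 : ∑ t ∈ range N, line y f d N (t + 1) * line y f d N t =
          f 0 ^ 2 * (2 * y * (1 - (1 / 2) ^ N)) := by
        rw [← geo1 y hy N, ← Finset.sum_range_reflect (fun t => y ^ (t + 1) * y ^ t), Finset.mul_sum]
        refine Finset.sum_congr rfl fun t h => ?_
        rw [Finset.mem_range] at h
        rw [line_lt _ _ _ _ _ (by omega), line_lt _ _ _ _ _ (by omega)]
        rw [show N - (t + 1) = N - 1 - t by omega, show N - t = N - 1 - t + 1 by omega]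
        ring
      have a2 : ∑ t ∈ range d, line y f d N (N + t + 1) * line y f d N (N + t) =
          ∑ t ∈ range d, f (t + 1) * f t := by
        refine Finset.sum_congr rfl fun t h => ?_
        rw [Finset.mem_range] at h
        rw [line_mid _ _ _ _ _ (by omega), add_assoc, line_mid _ _ _ _ _ (by omega)]
      have a3 : ∑ t ∈ range N, line y f d N (N + d + t + 1) * line y f d N (N + d + t) =
          f d ^ 2 * (2 * y * (1 - (1 / 2) ^ N)) := by
        rw [← geo1 y hy N, Finset.mul_sum]
        refine Finset.sum_congr rfl fun t _ => ?_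
        rw [line_gt, add_assoc (N + d), line_gt]
        ring
      have b1 : ∑ t ∈ range N, line y f d N t ^ 2 = f 0 ^ 2 * (1 - (1 / 2) ^ N) := by
        rw [← geo2 y hy N, ← Finset.sum_range_reflect (fun t => (y ^ (t + 1)) ^ 2), Finset.mul_sum]
        refine Finset.sum_congr rfl fun t h => ?_
        rw [Finset.mem_range] at h
        rw [line_lt _ _ _ _ _ (by omega), show N - t = N - 1 - t + 1 by omega]
        ring
      have b2 : ∑ t ∈ range (d + 1), line y f d N (N + t) ^ 2 = ∑ t ∈ range (d + 1), f t ^ 2 := by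
        refine Finset.sum_congr rfl fun t h => ?_
        rw [Finset.mem_range] at h
        rw [line_mid _ _ _ _ _ (by omega)]
      have b3 : ∑ t ∈ range N, line y f d N (N + (d + 1) + t) ^ 2 =
          f d ^ 2 * (1 - (1 / 2) ^ N) := by
        rw [← geo2 y hy N, Finset.mul_sum]
        refine Finset.sum_congr rfl fun t _ => ?_
        rw [show N + (d + 1) + t = N + d + (t + 1) by ring, line_gt]
        ring
      rw [a1, a2, a3, b1, b2, b3] at h
      have c1 : f 0 ^ 2 ≤ ∑ t ∈ range (d + 1), f t ^ 2 :=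
        Finset.single_le_sum (f := fun t => f t ^ 2) (fun t _ => sq_nonneg _)
          (Finset.mem_range.2 (Nat.succ_pos d))
      have c2 : 0 ≤ ∑ k ∈ range m, g (k + 1) ^ 2 := Finset.sum_nonneg fun t _ => sq_nonneg _
      have c3 : (0 : ℝ) ≤ 1 - (1 / 2) ^ N := by
        have : ((1 : ℝ) / 2) ^ N ≤ 1 := pow_le_one₀ (by norm_num) (by norm_num)
        linarith
      have c4 : 0 ≤ (3 * y - c) * (f 0 ^ 2 * (1 - (1 / 2) ^ N) +
          (∑ t ∈ range (d + 1), f t ^ 2 - f 0 ^ 2) + f d ^ 2 * (1 - (1 / 2) ^ N) +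
          ∑ k ∈ range m, g (k + 1) ^ 2 + w ^ 2) := by
        refine mul_nonneg (by linarith) ?_
        have := mul_nonneg (sq_nonneg (f 0)) c3
        have := mul_nonneg (sq_nonneg (f d)) c3
        have := sq_nonneg w
        linarith
      nlinarith [h, c4]
    · intro k _
      unfold line
      split_ifs with h1 h2
      · exact mul_nonneg (hf 0 (Nat.zero_le _)) (pow_nonneg hy0.le _)
      · exact hf _ (by omega)
      · exact mul_nonneg (hf d le_rfl) (pow_nonneg hy0.le _)
    · rw [h0]
      exact (line_mid y f d N 0 (Nat.zero_le _)).symm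
  have lim : Filter.Tendsto (fun N : ℕ =>
      (3 * y * ∑ k ∈ range (d + 1), f k ^ 2 - 2 * ∑ k ∈ range d, f (k + 1) * f k)
      + (3 * y * ∑ k ∈ range m, g (k + 1) ^ 2 - 2 * ∑ k ∈ range m, g (k + 1) * g k)
      + (3 * y * w ^ 2 - 2 * w * f d) - y * f 0 ^ 2 - y * f d ^ 2
      + y * (f 0 ^ 2 + f d ^ 2) * (1 / 2) ^ N) Filter.atTop (nhds
      ((3 * y * ∑ k ∈ range (d + 1), f k ^ 2 - 2 * ∑ k ∈ range d, f (k + 1) * f k)
      + (3 * y * ∑ k ∈ range m, g (k + 1) ^ 2 - 2 * ∑ k ∈ range m, g (k + 1) * g k)
      + (3 * y * w ^ 2 - 2 * w * f d) - y * f 0 ^ 2 - y * f d ^ 2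
      + y * (f 0 ^ 2 + f d ^ 2) * 0)) :=
    ((tendsto_pow_atTop_nhds_zero_of_lt_one (by norm_num) (by norm_num)).const_mul _).const_add _
  have := ge_of_tendsto' lim key
  linarith

/-- sums of solutions of the recurrence -/
theorem pathsum (y : ℝ) (f : ℕ → ℝ) (hr : ∀ k, f (k + 2) = 3 * y * f (k + 1) - f k) (n : ℕ) :
    3 * y * ∑ k ∈ range (n + 1), f k ^ 2 - 2 * ∑ k ∈ range n, f (k + 1) * f k =
      f 0 * (3 * y * f 0 - f 1) + f n * f (n + 1) := by
  induction n with
  | zero => simp; ring
  | succ n ih =>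
    rw [Finset.sum_range_succ _ (n + 1),
      Finset.sum_range_succ (fun k => f (k + 1) * f k) n, hr]
    linear_combination ih

theorem core (ht : S_tree) (hN : Net W c) (hp : Line W p) (d m : ℕ) (x : ℕ → V) (u : V)
    (hm : 1 ≤ m) (hd : d ≤ m + 1)
    (ha : Arm W p m x)
    (hx : ∀ k a, 1 ≤ k → k ≤ m → (W (p a) (x k) ≠ 0 ↔ (a = 0 ∧ k = 1)))
    (hu : Off p u) (h1 : One W p u d) (hxu : ∀ k, 1 ≤ k → k ≤ m → x k ≠ u ∧ W (x k) u = 0) :
    False := by
  obtain ⟨y, hy0, hy, hc⟩ : ∃ y : ℝ, 0 < y ∧ y ^ 2 = 1 / 2 ∧ c < 3 * y := by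
    refine ⟨1 / Real.sqrt 2, by positivity, ?_, ?_⟩
    · rw [div_pow, Real.sq_sqrt (by norm_num)]; norm_num
    · have := hN.lt
      rwa [mul_one_div]
  have hy1 : y ≤ 3 / 4 := by nlinarith
  -- the shortened arm
  have short : ∀ m' : ℕ, m' ≤ m → Arm W p m' x := fun m' h' =>
    ⟨fun k h1 h2 => ha.off k h1 (by omega),
      fun k l h1 h2 h3 h4 => ha.inj k l h1 (by omega) h3 (by omega),
      fun k l h1 h2 h3 h4 => ha.adj k l h1 (by omega) h3 (by omega)⟩
  rcases Nat.lt_or_ge d 2 with hd2 | hd2
  · have h := rays ht hN hp d 1 x u (short 1 hm) (fun k a h h' => hx k a h (by omega)) hu h1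
      (fun k h h' => hxu k h (by omega)) y hy0 hy hc (fun _ => 1)
      (fun k => if k = 0 then 1 else 2 * y / 3) (2 * y / 3) (fun _ _ => zero_le_one)
      (fun k _ => by split_ifs <;> positivity) (by positivity) (by simp)
    interval_cases d
    · simp at h
      nlinarith
    · simp at h
      nlinarith
  · have hD0 : 0 < y ^ d := pow_pos hy0 d
    set D := y ^ d with hD
    have hr1 : y * (2 * y) = 1 := by nlinarith
    have hDr : D * (2 * y) ^ d = 1 := by
      rw [hD, ← mul_pow, hr1, one_pow]
    have hY : D ^ 2 ≤ 1 / 4 := by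
      rw [hD, ← pow_mul, mul_comm, pow_mul, hy]
      calc ((1 : ℝ) / 2) ^ d ≤ (1 / 2) ^ 2 := pow_le_pow_of_le_one (by norm_num) (by norm_num) hd2
        _ = 1 / 4 := by norm_num
    obtain ⟨n, rfl⟩ : ∃ n, d = n + 1 := ⟨d - 1, by omega⟩
    let f : ℕ → ℝ := fun k => (1 - 2 * D ^ 2) * y ^ k + D ^ 2 * (2 * y) ^ k
    let g : ℕ → ℝ := fun k => y ^ k - D ^ 2 * (2 * y) ^ k
    have hfr : ∀ k, f (k + 2) = 3 * y * f (k + 1) - f k := by
      intro k
      simp only [f]
      have e1 : y ^ (k + 2) = y ^ k / 2 := by rw [pow_add, hy]; ring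
      have e2 : (2 * y) ^ (k + 2) = 2 * (2 * y) ^ k := by
        rw [pow_add, mul_pow 2 y 2, hy]; ring
      have e3 : y ^ (k + 1) = y ^ k * y := pow_succ _ _
      have e4 : (2 * y) ^ (k + 1) = (2 * y) ^ k * (2 * y) := pow_succ _ _
      rw [e1, e2, e3, e4]
      linear_combination (-3 * (1 - 2 * D ^ 2) * y ^ k - 6 * D ^ 2 * (2 * y) ^ k) * hy
    have hgr : ∀ k, g (k + 2) = 3 * y * g (k + 1) - g k := by
      intro k
      simp only [g]
      have e1 : y ^ (k + 2) = y ^ k / 2 := by rw [pow_add, hy]; ring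
      have e2 : (2 * y) ^ (k + 2) = 2 * (2 * y) ^ k := by
        rw [pow_add, mul_pow 2 y 2, hy]; ring
      have e3 : y ^ (k + 1) = y ^ k * y := pow_succ _ _
      have e4 : (2 * y) ^ (k + 1) = (2 * y) ^ k * (2 * y) := pow_succ _ _
      rw [e1, e2, e3, e4]
      linear_combination (-3 * y ^ k + 6 * D ^ 2 * (2 * y) ^ k) * hy
    have f0 : f 0 = 1 - D ^ 2 := by simp only [f, pow_zero]; ring
    have f1 : f 1 = y := by simp only [f, pow_one]; ring
    have g0 : g 0 = 1 - D ^ 2 := by simp only [g, pow_zero]; ring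
    have g1 : g 1 = y * (1 - 2 * D ^ 2) := by simp only [g, pow_one]; ring
    have fd : f (n + 1) = 2 * D * (1 - D ^ 2) := by
      simp only [f]
      rw [← hD]
      linear_combination D * hDr
    have fd1 : f (n + 1 + 1) = 3 * y * D - 2 * y * D ^ 3 := by
      simp only [f]
      rw [pow_succ y (n + 1), pow_succ (2 * y) (n + 1), ← hD]
      linear_combination (D * (2 * y)) * hDr
    have gd : g (n + 1) = 0 := by
      simp only [g]
      rw [← hD]
      linear_combination (- D) * hDr
    have hfn : ∀ k, 0 ≤ f k := fun k => by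
      simp only [f]
      have : 0 ≤ 1 - 2 * D ^ 2 := by linarith
      positivity
    have hgn : ∀ k, k ≤ n → 0 ≤ g k := fun k hk => by
      simp only [g]
      have e : D ^ 2 * (2 * y) ^ k = (y ^ (n + 1 - k)) ^ 2 * y ^ k := by
        have : D = y ^ (n + 1 - k) * y ^ k := by rw [hD, ← pow_add]; congr 1; omega
        have h2 : y ^ k * (2 * y) ^ k = 1 := by rw [← mul_pow, hr1, one_pow]
        rw [this]
        linear_combination ((y ^ (n + 1 - k)) ^ 2 * y ^ k) * h2
      rw [e]
      have h3 : (y ^ (n + 1 - k)) ^ 2 ≤ 1 := by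
        rw [← pow_mul, mul_comm, pow_mul, hy]
        exact pow_le_one₀ (by norm_num) (by norm_num)
      have h4 : 0 < y ^ k := pow_pos hy0 k
      nlinarith
    have h := rays ht hN hp (n + 1) n x u (short n (by omega))
      (fun k a h h' => hx k a h (by omega)) hu h1
      (fun k h h' => hxu k h (by omega)) y hy0 hy hc f g (2 * y / 3 * f (n + 1))
      (fun k _ => hfn k) hgn (mul_nonneg (by positivity) (hfn _)) (by rw [f0, g0])
    have s1 := pathsum y f hfr (n + 1)
    have s2 := pathsum y g hgr n
    rw [Finset.sum_range_succ'] at s2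
    rw [s1] at h
    have s3 : 3 * y * ∑ k ∈ range n, g (k + 1) ^ 2 - 2 * ∑ k ∈ range n, g (k + 1) * g k =
        - (g 0 * g 1) := by
      rw [gd] at s2
      linear_combination s2
    rw [s3, f0, f1, g0, g1, fd, fd1] at h
    have t1 : (0 : ℝ) < (3 * y - c) * (1 - D ^ 2) ^ 2 := by
      have : 0 < 1 - D ^ 2 := by linarith
      have : 0 < 3 * y - c := by linarith
      positivity
    have t2 : (1 - D ^ 2) * (3 * y * (1 - D ^ 2) - y) + 2 * D * (1 - D ^ 2) *
        (3 * y * D - 2 * y * D ^ 3) + -((1 - D ^ 2) * (y * (1 - 2 * D ^ 2))) +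
        (3 * y * (2 * y / 3 * (2 * D * (1 - D ^ 2))) ^ 2 -
          2 * (2 * y / 3 * (2 * D * (1 - D ^ 2))) * (2 * D * (1 - D ^ 2))) -
        y * (1 - D ^ 2) ^ 2 - y * (2 * D * (1 - D ^ 2)) ^ 2 =
        2 / 3 * y * D ^ 2 * (1 - D ^ 2) * (4 * D ^ 2 - 1) := by
      linear_combination (16 / 3 * y * D ^ 2 * (1 - D ^ 2) ^ 2) * hy
    rw [t2] at h
    have t3 : 2 / 3 * y * D ^ 2 * (1 - D ^ 2) * (4 * D ^ 2 - 1) ≤ 0 := by
      have a1 : 0 ≤ 2 / 3 * y * D ^ 2 * (1 - D ^ 2) := by
        have : 0 ≤ 1 - D ^ 2 := by linarith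
        positivity
      have a2 : 4 * D ^ 2 - 1 ≤ 0 := by linarith
      exact mul_nonpos_of_nonneg_of_nonpos a1 a2
    linarith

/-- (R3) two side arms -/
theorem t_sa : S_tree → S_sa := by
  intro ht V W c hN p hp i j m x u hm hd ha hx hu h1 hxu
  rcases le_total i j with hij | hij
  · -- translate
    obtain ⟨d, hd'⟩ : ∃ d : ℕ, j = i + d := ⟨(j - i).toNat, by omega⟩
    subst hd'
    refine core ht hN (hp.shift i) d m x u hm (by omega) ⟨fun k h h' => (ha.off k h h').shift i,
      ha.inj, ha.adj⟩ (fun k a h h' => ?_) (hu.shift i) ?_ hxu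
    · rw [hx k (a + i) h h']
      omega
    · have := h1.shift i
      rwa [show i + (d : ℤ) - i = d by ring] at this
  · obtain ⟨d, hd'⟩ : ∃ d : ℕ, j = i - d := ⟨(i - j).toNat, by omega⟩
    subst hd'
    refine core ht hN (hp.rev.shift (-i)) d m x u hm (by omega)
      ⟨fun k h h' => (ha.off k h h').rev.shift (-i), ha.inj, ha.adj⟩ (fun k a h h' => ?_)
      (hu.rev.shift (-i)) ?_ hxu
    · show W (p (-(a + -i))) (x k) ≠ 0 ↔ _
      rw [hx k _ h h']
      omega
    · have := h1.rev.shift (-i)
      rwa [show -(i - (d : ℤ)) - -i = d by ring] at this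

end Pool.Agent.Q213.BD
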